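import Pool.Agent.Lib.MP_b5021c_nt.IfaceKV
import Pool.Agent.Lib.MP_b5021c_nt.O1.H12.Glu

/-!
# Board b5, ALL `θ`, K EVEN, row KV_EXT (helper31): an extremal closing without small factors
-/

namespace Pool.Agent.B5.KV31

open scoped LaurentPolynomial
open Polynomial Pool.Agent.B5
open Pool.Agent.B5.O1.H12 (ZP zp_mul zp_one supp_prod)

/-! ## Products of z-free elements -/

/-- An injective map between free modules has a left inverse up to an integer. -/
theorem left_inv {M K : Type} [AddCommGroup M] [Module.Free ℤ M] [Module.Finite ℤ M]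
    [AddCommGroup K] [Module.Free ℤ K] [Module.Finite ℤ K] (Φ : M →ₗ[ℤ] K)
    (hinj : Function.Injective Φ) :
    ∃ (d : ℤ) (Ψ : K →ₗ[ℤ] M), d ≠ 0 ∧ ∀ x, Ψ (Φ x) = d • x := by
  classical
  let b := Module.finBasis ℤ M
  let e := Module.finBasis ℤ K
  let A := LinearMap.toMatrix b e Φ
  refine ⟨(A.transpose * A).det,
    Matrix.toLin e b ((A.transpose * A).adjugate * A.transpose), ?_, ?_⟩
  · intro h0
    obtain ⟨v, hv, hv0⟩ := Matrix.exists_mulVec_eq_zero_iff.mpr h0
    apply hv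
    have hA : A.mulVec v = 0 := by
      have h1 : dotProduct (A.mulVec v) (A.mulVec v) = 0 := by
        rw [Matrix.dotProduct_mulVec, Matrix.vecMul_mulVec]
        rw [← Matrix.mulVec_mulVec] at hv0
        have h2 : (A.transpose * A).mulVec v = 0 := by rw [← Matrix.mulVec_mulVec]; exact hv0
        have h3 : Matrix.vecMul v (A.transpose * A) = 0 := by
          have h4 : Matrix.vecMul v (A.transpose * A) =
              (A.transpose * A).transpose.mulVec v := by rw [Matrix.mulVec_transpose]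
          rw [h4, Matrix.transpose_mul, Matrix.transpose_transpose, h2]
        rw [h3]
        exact zero_dotProduct v
      exact dotProduct_self_eq_zero.mp h1
    have h1 : Φ (b.equivFun.symm v) = 0 := by
      apply e.equivFun.injective
      rw [map_zero]
      funext i
      have h2 := LinearMap.toMatrix_mulVec_repr b e Φ (b.equivFun.symm v)
      have h3 : (b.repr (b.equivFun.symm v) : Fin (Module.finrank ℤ M) → ℤ) = v := by
        funext i
        exact congrFun (b.equivFun.apply_symm_apply v) i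
      rw [h3] at h2
      have h4 := congrFun h2 i
      change (e.repr (Φ (b.equivFun.symm v))) i = 0
      rw [← h4]
      exact congrFun hA i
    have h5 := hinj (h1.trans (map_zero Φ).symm)
    exact b.equivFun.symm.injective (h5.trans (map_zero _).symm)
  · intro x
    have h1 : Matrix.toLin e b ((A.transpose * A).adjugate * A.transpose) ∘ₗ Φ =
        (A.transpose * A).det • LinearMap.id := by
      apply (LinearMap.toMatrix b b).injective
      rw [LinearMap.toMatrix_comp b e b, LinearMap.toMatrix_toLin, map_smul, LinearMap.toMatrix_id]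
      change ((A.transpose * A).adjugate * A.transpose) * A = _
      rw [Matrix.mul_assoc, Matrix.adjugate_mul]
    exact LinearMap.congr_fun h1 x

variable {K : Type} [AddCommGroup K] [Module.Free ℤ K] [Module.Finite ℤ K]

/-- Functionals on independent sublattices extend, up to a common multiple. -/
theorem glue {n : ℕ} (U : Fin n → Submodule ℤ K) (l : ∀ i, U i →+ ℤ) (q : Fin n → ℕ)
    (hq : ∀ i, 0 < q i)
    (hfull : ∑ i, Module.finrank ℤ (U i) ≤ Module.finrank ℤ (⨆ i, U i : Submodule ℤ K)) :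
    ∃ (Q : ℕ) (f : K →+ ℤ), 0 < Q ∧ ∀ (i : Fin n) (a : U i), (q i : ℤ) * f (a : K) = Q * l i a := by
  classical
  -- the sum map
  let Φ : (∀ i, U i) →ₗ[ℤ] K := LinearMap.lsum ℤ (fun i => U i) ℤ (fun i => (U i).subtype)
  have hΦ : ∀ i (a : U i), Φ (Pi.single i a) = a := by
    intro i a
    change (LinearMap.lsum ℤ (fun i => U i) ℤ (fun i => (U i).subtype)) (Pi.single i a) = _
    rw [LinearMap.lsum_piSingle]
    rfl
  have hle : (⨆ i, U i) ≤ LinearMap.range Φ := by
    apply iSup_le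
    intro i a ha
    exact ⟨Pi.single i ⟨a, ha⟩, hΦ i ⟨a, ha⟩⟩
  have hfr : Module.finrank ℤ (∀ i, U i) = ∑ i, Module.finrank ℤ (U i) := by
    rw [Module.finrank_pi_fintype]
  have hrk : Module.finrank ℤ (∀ i, U i) ≤ Module.finrank ℤ (LinearMap.range Φ) := by
    rw [hfr]
    exact hfull.trans (Submodule.finrank_mono hle)
  have hker : Module.finrank ℤ (LinearMap.ker Φ) = 0 := by
    have h1 := Submodule.finrank_quotient_add_finrank (LinearMap.ker Φ)
    have h2 := (Φ.quotKerEquivRange).finrank_eq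
    omega
  have hinj : Function.Injective Φ := by
    rw [← LinearMap.ker_eq_bot]
    have h1 : Module.Free ℤ (LinearMap.ker Φ) := inferInstance
    have h2 := Module.finrank_zero_iff.mp hker
    rw [Submodule.eq_bot_iff]
    intro x hx
    have h3 : (⟨x, hx⟩ : LinearMap.ker Φ) = 0 := Subsingleton.elim _ _
    exact congrArg Subtype.val h3
  obtain ⟨d, Ψ, hd, hΨ⟩ := left_inv Φ hinj
  -- the functional
  let g : (∀ i, U i) →+ ℤ := ∑ i, ((∏ j ∈ Finset.univ.erase i, (q j : ℤ)) •
    ((l i).comp (Pi.evalAddMonoidHom (fun i => U i) i)))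
  have hg : ∀ i (a : U i), (q i : ℤ) * g (Pi.single i a) = (∏ j, (q j : ℤ)) * l i a := by
    intro i a
    have h1 : g (Pi.single i a) = (∏ j ∈ Finset.univ.erase i, (q j : ℤ)) * l i a := by
      change (∑ k, ((∏ j ∈ Finset.univ.erase k, (q j : ℤ)) •
        ((l k).comp (Pi.evalAddMonoidHom (fun i => U i) k)))) (Pi.single i a) = _
      rw [AddMonoidHom.finsetSum_apply, Finset.sum_eq_single i]
      · change (∏ j ∈ Finset.univ.erase i, (q j : ℤ)) • (l i ((Pi.single i a : ∀ i, U i) i)) = _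
        rw [Pi.single_eq_same, smul_eq_mul]
      · intro k _ hk
        change (∏ j ∈ Finset.univ.erase k, (q j : ℤ)) • (l k ((Pi.single i a : ∀ i, U i) k)) = _
        rw [Pi.single_eq_of_ne hk, map_zero, smul_zero]
      · intro h1
        exact absurd (Finset.mem_univ i) h1
    rw [h1, ← mul_assoc, Finset.mul_prod_erase Finset.univ (fun j => (q j : ℤ)) (Finset.mem_univ i)]
  obtain ⟨s, hs, hsd⟩ : ∃ s : ℤ, s * s = 1 ∧ (d.natAbs : ℤ) = s * d := by
    rcases le_total 0 d with h1 | h1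
    · exact ⟨1, by norm_num, by rw [Int.natAbs_of_nonneg h1, one_mul]⟩
    · exact ⟨-1, by norm_num, by rw [Int.ofNat_natAbs_of_nonpos h1]; ring⟩
  refine ⟨d.natAbs * ∏ j, q j, (s • g).comp Ψ.toAddMonoidHom, ?_, ?_⟩
  · exact Nat.mul_pos (Int.natAbs_pos.mpr hd) (Finset.prod_pos fun j _ => hq j)
  · intro i a
    have h1 : Ψ (a : K) = d • Pi.single i a := by rw [← hΦ i a, hΨ]
    change (q i : ℤ) * (s • g (Ψ (a : K))) = _
    rw [h1, map_zsmul, smul_eq_mul, smul_eq_mul]
    rw [Nat.cast_mul, Nat.cast_prod, hsd]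
    linear_combination (s * d) * hg i a

/-- THE PRODUCT of z-free elements in independent sublattices is z-free. -/
theorem zfree_prod {n : ℕ} (G : Fin n → AO ℤ K) (U : Fin n → Submodule ℤ K)
    (hG : ∀ i, ∀ a ∈ supp (G i), a ∈ U i) (hz : ∀ i, ZFree (res (U i) (G i)))
    (hfull : ∑ i, Module.finrank ℤ (U i) ≤ Module.finrank ℤ (⨆ i, U i : Submodule ℤ K)) :
    ZFree (∏ i, G i) := by
  classical
  choose q l n' hq hz' using hz
  obtain ⟨Q, f, hQ, hf⟩ := glue U l q hq hfull
  have h1 : ∀ i, ZP Q f (n' i) (G i) := by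
    intro i a k hk
    have ha : a ∈ U i := by
      apply hG i
      intro h0
      rw [h0] at hk
      exact hk rfl
    have h2 := hz' i ⟨a, ha⟩ k hk
    have h3 := hf i ⟨a, ha⟩
    have h4 : (q i : ℤ) * ((Q : ℤ) * k) = (q i : ℤ) * (f a + Q * n' i) := by
      change (q i : ℤ) * f a = _ at h3
      linear_combination (Q : ℤ) * h2 - h3
    exact mul_left_cancel₀ (by exact_mod_cast (hq i).ne') h4
  have h2 : ∀ s : Finset (Fin n), ZP Q f (∑ i ∈ s, n' i) (∏ i ∈ s, G i) := by
    intro s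
    induction s using Finset.induction_on with
    | empty => rw [Finset.prod_empty, Finset.sum_empty]; exact zp_one Q f
    | insert i s hi ih =>
      rw [Finset.prod_insert hi, Finset.sum_insert hi]
      exact zp_mul (h1 i) ih
  exact ⟨Q, f, ∑ i, n' i, hQ, h2 Finset.univ⟩

/-- The rank of the union of sublattices. -/
theorem finrank_iSup_le {n : ℕ} (U : Fin n → Submodule ℤ K) :
    Module.finrank ℤ (⨆ i, U i : Submodule ℤ K) ≤ ∑ i, Module.finrank ℤ (U i) := by
  classical
  let Φ : (∀ i, U i) →ₗ[ℤ] K := LinearMap.lsum ℤ (fun i => U i) ℤ (fun i => (U i).subtype)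
  have hle : (⨆ i, U i) ≤ LinearMap.range Φ := by
    apply iSup_le
    intro i a ha
    refine ⟨Pi.single i ⟨a, ha⟩, ?_⟩
    change (LinearMap.lsum ℤ (fun i => U i) ℤ (fun i => (U i).subtype)) (Pi.single i _) = _
    rw [LinearMap.lsum_piSingle]
    rfl
  refine (Submodule.finrank_mono hle).trans ?_
  refine (LinearMap.finrank_range_le Φ).trans ?_
  rw [Module.finrank_pi_fintype]

/-! ## Numbers -/

/-- `Σ ≤ Π` for integers at least two. -/
theorem sum_le_prod {ι : Type} (s : Finset ι) (x : ι → ℕ) (hx : ∀ i ∈ s, 2 ≤ x i)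
    (hs : s.Nonempty) : ∑ i ∈ s, x i ≤ ∏ i ∈ s, x i ∧ 2 ≤ ∏ i ∈ s, x i := by
  classical
  induction s using Finset.induction_on with
  | empty => exact absurd hs (by simp)
  | insert i s hi ih =>
    rw [Finset.sum_insert hi, Finset.prod_insert hi]
    have h1 := hx i (Finset.mem_insert_self _ _)
    rcases s.eq_empty_or_nonempty with h2 | h2
    · subst h2
      simp only [Finset.sum_empty, Finset.prod_empty]
      omega
    · obtain ⟨h3, h4⟩ := ih (fun k hk => hx k (Finset.mem_insert_of_mem hk)) h2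
      constructor
      · nlinarith
      · nlinarith

/-- The level of class `V` over the integers. -/
theorem classV_nat {N : ℝ} {Q : RO ℤ} (hV : ClassV N Q) : ∃ m : ℕ, 1 ≤ m ∧ N = m := by
  obtain ⟨h1, n, g, hg, hg0, hz⟩ := hV
  have h2 : N = ((g.coeff 0).natAbs : ℕ) := by
    rw [← hg0]
    change ‖((g.coeff 0 : ℤ) : ℂ)‖ = _
    rw [Complex.norm_intCast, Nat.cast_natAbs, Int.cast_abs]
  refine ⟨(g.coeff 0).natAbs, ?_, h2⟩
  rw [h2] at h1
  exact_mod_cast h1

/-- Class `V(N')`, `N' ≤ j`, rank `2 j + 1`: impossible. -/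
theorem fcl_no (hEvz : EvzS) (hEv1 : BdV ℤ 1 1) {j : ℕ} (hj : 2 ≤ j) {N' : ℝ} (hN : N' ≤ j)
    {P' L' : Type} [Fintype P'] [DecidableEq P'] [AddCommGroup L'] [Module.Free ℤ L']
    [Module.Finite ℤ L'] {phi' : L' →+ (P' → ℤ)} {D' : AO ℤ L'} (hD : DD phi' D')
    (hV : ClassV N' (D'.coeff 0)) (hr : 2 * j + 1 ≤ Module.finrank ℤ L') : False := by
  obtain ⟨m, hm1, rfl⟩ := classV_nat hV
  have hmj : m ≤ j := by exact_mod_cast hN
  rcases Nat.lt_or_ge m 2 with h3 | h3
  · have h4 : m = 1 := by omega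
    rw [h4, Nat.cast_one] at hV
    have h5 := hEv1 P' L' phi' D' hD hV
    have h6 : Module.finrank ℤ L' ≤ 1 := by exact_mod_cast h5
    omega
  · have h5 := hEvz m h3 P' L' phi' D' hD hV
    have h6 : Module.finrank ℤ L' ≤ 2 * m := by exact_mod_cast h5
    omega

/-! ## The row -/

section

variable {P L : Type} [Fintype P] [DecidableEq P] [AddCommGroup L] [Module.Free ℤ L]
  [Module.Finite ℤ L] {phi : L →+ (P → ℤ)} {D : AO ℤ L}

omit [Module.Free ℤ L] [Module.Finite ℤ L] in
/-- The marking of the kernel is injective. -/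
theorem phO_inj {S : L} {i0 : P} (h : co phi i0 S = 1) (hI : ImS phi S) :
    Function.Injective (phO phi S i0) := by
  rw [injective_iff_map_eq_zero]
  intro a ha
  have h1 : ∀ j, phi S j = 0 → phi (a : L) j = 0 := by
    intro j hj
    have h4 : phO phi S i0 a j = 0 := by rw [ha]; rfl
    change (if phi S j = 0 then phi (a : L) j else 0) = 0 at h4
    rw [if_pos hj] at h4
    exact h4
  obtain ⟨k, hk⟩ := hI (a : L) h1
  have h2 : co phi i0 (a : L) = 0 := a.2
  rw [hk, map_zsmul, h, smul_eq_mul, mul_one] at h2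
  apply Subtype.ext
  rw [hk, h2, zero_smul]
  rfl

/-- A factor of the closing as an element of `DD`, its rank, and z-freeness if it is extremal. -/
theorem fac_rank (hEvz : EvzS) (hEv1 : BdV ℤ 1 1) (hFcl : FclS) (hR : ResWDS) (hRS : ResStS)
    {S : L} {i0 : P} {eta : (RO ℤ)ˣ} {h : co phi i0 S = 1} {c : RO ℤ} {n : ℕ}
    {G : Fin n → AO ℤ (Ker (co phi i0))} (hI : ImS phi S) (fd : FD phi D S i0 eta h c n G)
    (i : Fin n) {N : ℕ} (hN : 2 ≤ N) (hV : ClassV (N : ℝ) ((G i).coeff 0)) :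
    rk (supp (G i)) ≤ 2 * N ∧ ∃ U : Submodule ℤ (Ker (co phi i0)),
      (∀ a ∈ supp (G i), a ∈ U) ∧ Module.finrank ℤ U = rk (supp (G i)) ∧
      (rk (supp (G i)) = 2 * N → ZFree (res U (G i))) := by
  obtain ⟨U, hsat, hU, hUr, hirr, hun, hrk⟩ := hR ℤ (Ker (co phi i0)) (G i) (fd.irr i).ne_zero
  have hbin : ∀ a ∈ supp (G i), Bin (phO phi S i0) a := by
    intro a ha j
    change (if phi S j = 0 then phi (a : L) j else 0) = 0 ∨
      (if phi S j = 0 then phi (a : L) j else 0) = 1
    by_cases hj : phi S j = 0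
    · rw [if_pos hj]
      exact (fd.ww i a ha).1 j (by
        unfold OO
        exact Finset.mem_filter.mpr ⟨Finset.mem_univ _, hj⟩)
    · left
      rw [if_neg hj]
  have hDD : DD ((phO phi S i0).comp (incl U)) (res U (G i)) :=
    ⟨(phO_inj h hI).comp fun _ _ hh => Subtype.ext hh, fun a ha => hbin _ ha,
      (hRS ℤ (Ker (co phi i0)) (G i) U hsat hU).mp (fd.st i), hun (fd.un i), hirr (fd.irr i),
      by rw [hrk, hUr]⟩
  have hV' : ClassV (N : ℝ) ((res U (G i)).coeff 0) := by
    have h1 : (res U (G i)).coeff 0 = (G i).coeff 0 := rfl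
    rw [h1]; exact hV
  have h1 := hEvz N hN P U _ _ hDD hV'
  rw [hUr] at h1
  refine ⟨by exact_mod_cast h1, U, hU, hUr, fun hr => ?_⟩
  rcases hFcl ℤ P U _ _ (N : ℝ) hDD hV' (by rw [hUr, hr]; omega) with h2 | ⟨N', b, D', hN', hD', hV2, hr2⟩
  · exact h2
  · exfalso
    exact fcl_no hEvz hEv1 hN hN' hD' hV2 (by rw [hr2, hUr, hr])

end

/-- ROW KV_EXT. -/
theorem kvx (hEvz : EvzS) (hEv1 : BdV ℤ 1 1) (hFcl : FclS) (hMm : MmulS) (hE1 : E1S) (hMV : MVS)
    (hR : ResWDS) (hRS : ResStS) : KvxS := by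
  classical
  intro P L _ _ _ _ _ phi D S i0 eta h c n G N fd hI hN1 hV hrk hall
  have hcls := hV
  rw [fd.v00] at hcls
  obtain ⟨Nc, -, hcV, -, -⟩ := (hE1 ℤ).1 _ _ _ hcls
  obtain ⟨c0, hc0, rfl⟩ := classV_nat hcV
  have hgV : ∀ i, ∃ m : ℕ, 1 ≤ m ∧ ClassV (m : ℝ) ((G i).coeff 0) := by
    intro i
    have h3 : c * ∏ i, (G i).coeff 0 = (G i).coeff 0 * (c * ∏ k ∈ Finset.univ.erase i, (G k).coeff 0) := by
      rw [← Finset.mul_prod_erase Finset.univ (fun i => (G i).coeff 0) (Finset.mem_univ i)]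
      ring
    rw [h3] at hcls
    obtain ⟨N1, -, h4, -, -⟩ := (hE1 ℤ).1 _ _ _ hcls
    obtain ⟨m, hm, rfl⟩ := classV_nat h4
    exact ⟨m, hm, h4⟩
  choose Ni hNi1 hNiV using hgV
  have hMc : M c = c0 := ((hMV ℤ).1 _ _ hcV).2
  have hMi : ∀ i, M ((G i).coeff 0) = Ni i := fun i => ((hMV ℤ).1 _ _ (hNiV i)).2
  have hMp : ∀ s : Finset (Fin n), M (∏ i ∈ s, (G i).coeff 0) = ∏ i ∈ s, (Ni i : ℝ) := by
    intro s
    induction s using Finset.induction_on with
    | empty =>
      rw [Finset.prod_empty, Finset.prod_empty]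
      exact (hMm ℤ).2.2 1 isUnit_one
    | insert i s hi ih =>
      rw [Finset.prod_insert hi, Finset.prod_insert hi,
        (hMm ℤ).1 _ _ (fd.st i).1 (Finset.prod_ne_zero_iff.mpr fun k _ => (fd.st k).1), ih, hMi]
  have hprod : N = c0 * ∏ i, Ni i := by
    have h3 := ((hMV ℤ).1 _ _ hcls).2
    rw [(hMm ℤ).1 _ _ fd.c0 (Finset.prod_ne_zero_iff.mpr fun k _ => (fd.st k).1), hMc, hMp] at h3
    have h4 : ((c0 * ∏ i, Ni i : ℕ) : ℝ) = N := by
      rw [← h3]
      push_cast
      rfl
    exact_mod_cast h4.symm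
  have hbig : ∀ i, 2 ≤ Ni i := by
    intro i
    have h3 := hall i
    rw [hMi] at h3
    have h4 : 1 < Ni i := by exact_mod_cast h3
    omega
  have hbr := fun i => fac_rank hEvz hEv1 hFcl hR hRS hI fd i (hbig i) (hNiV i)
  choose hb1 U hUG hUr hUz using hbr
  -- the rank
  have h6 : rk (supp (cl (co phi i0) S h eta D)) ≤
      Module.finrank ℤ (⨆ i, U i : Submodule ℤ (Ker (co phi i0))) := by
    unfold rk
    apply Submodule.finrank_mono
    rw [Submodule.span_le]
    intro x hx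
    rw [fd.eq] at hx
    have h7 : x ∈ supp (∏ i, G i) := by
      intro h0
      apply hx
      rw [H71.cst_mul_coeff, h0, mul_zero]
    exact supp_prod G (⨆ i, U i) (fun i a ha => Submodule.mem_iSup_of_mem i (hUG i a ha))
      Finset.univ x h7
  have h7 := finrank_iSup_le U
  have h8 : ∑ i, Module.finrank ℤ (U i) = ∑ i, rk (supp (G i)) :=
    Finset.sum_congr rfl fun i _ => hUr i
  have h9 : ∑ i, rk (supp (G i)) ≤ ∑ i, 2 * Ni i := Finset.sum_le_sum fun i _ => hb1 i
  have h10 : ∑ i, 2 * Ni i = 2 * ∑ i, Ni i := by rw [Finset.mul_sum]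
  have hne : (Finset.univ : Finset (Fin n)).Nonempty := by
    rw [Finset.nonempty_iff_ne_empty]
    intro h0
    have h11 : ∑ i, Ni i = 0 := by rw [h0, Finset.sum_empty]
    omega
  obtain ⟨h11, h12⟩ := sum_le_prod Finset.univ Ni (fun i _ => hbig i) hne
  have hc1 : c0 = 1 := by
    by_contra hcon
    have h13 : 2 ≤ c0 := by omega
    have h14 : 2 * ∏ i, Ni i ≤ N := by
      rw [hprod]
      exact Nat.mul_le_mul_right _ h13
    omega
  subst hc1
  rw [one_mul] at hprod
  have hcV1 : ClassV 1 c := by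
    have h3 := hcV
    rw [Nat.cast_one] at h3
    exact h3
  have hsum2 : ∑ i, rk (supp (G i)) = ∑ i, 2 * Ni i := by omega
  have heq : ∀ i, rk (supp (G i)) = 2 * Ni i := by
    intro i
    exact (Finset.sum_eq_sum_iff_of_le (fun i _ => hb1 i)).mp hsum2 i (Finset.mem_univ i)
  exact ⟨by omega, hcV1, zfree_prod G U hUG (fun i => hUz i (heq i)) (by omega)⟩

end Pool.Agent.B5.KV31
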